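import Pool.Agent.Helper30.CIR.Goals
import Mathlib

/-!
# Project CIR (MP_f32c9c_an), packet JEN

Jensen's inequality for a complex polynomial with `p(0) = 1`: the mean of `log |p|` over the unit circle is nonnegative.
-/

set_option autoImplicit false

namespace Pool.Agent.Helper50.CIR

open Pool.Agent.Helper30.CIR MeasureTheory intervalIntegral

theorem gJEN : Pool.Agent.Helper30.CIR.StmtJEN := by
  intro p hp
  have h0 : p.coeff 0 = 1 := by rw [Polynomial.coeff_zero_eq_eval_zero]; exact hp
  have h1 : (1 : ℝ) ≤ p.mahlerMeasure := by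
    have h := Polynomial.norm_coeff_le_choose_mul_mahlerMeasure 0 p
    rw [h0] at h
    simpa using h
  have h2 : 0 ≤ p.logMahlerMeasure := by
    rw [Polynomial.logMahlerMeasure_eq_log_MahlerMeasure]
    exact Real.log_nonneg h1
  have hpi : (2 * Real.pi) ≠ 0 := by positivity
  have h3 : ∫ τ in (0 : ℝ)..1, Real.log ‖p.eval (ee τ)‖ = p.logMahlerMeasure := by
    rw [Polynomial.logMahlerMeasure_def, Real.circleAverage_def]
    have h4 := intervalIntegral.integral_comp_mul_left
      (fun x : ℝ => Real.log ‖p.eval (circleMap 0 1 x)‖) (a := 0) (b := 1) hpi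
    rw [mul_zero, mul_one] at h4
    rw [← h4]
    apply intervalIntegral.integral_congr
    intro τ _
    simp only [ee, circleMap, Complex.ofReal_one, one_mul, zero_add]
  rw [h3]
  exact h2

end Pool.Agent.Helper50.CIR
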